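import Mathlib

/-!
Selective pseudocompactness and selective sequential pseudocompactness are not preserved by
`G`-equivalence.
-/

set_option autoImplicit false

open Set Filter Topology TopologicalSpace

namespace Pool.Agent.Results.MP_c4a8f9_gt.NotInvariant

universe u v

/-- Selectively sequentially pseudocompact spaces. -/
def SelSeqPseudocompact (X : Type u) [TopologicalSpace X] : Prop :=
  ∀ U : ℕ → Set X, (∀ n, IsOpen (U n) ∧ (U n).Nonempty) →
    ∃ x : ℕ → X, (∀ n, x n ∈ U n) ∧
      ∃ φ : ℕ → ℕ, StrictMono φ ∧ ∃ a, Tendsto (x ∘ φ) atTop (𝓝 a)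

/-- Selectively pseudocompact spaces. -/
def SelPseudocompact (X : Type u) [TopologicalSpace X] : Prop :=
  ∀ U : ℕ → Set X, (∀ n, IsOpen (U n) ∧ (U n).Nonempty) →
    (∀ m n, m ≠ n → Disjoint (U m) (U n)) →
      ∃ x : ℕ → X, (∀ n, x n ∈ U n) ∧ ¬ IsClosed (range x)

/-- The group `C_p(X, G)` of the continuous maps `X → G`, with the pointwise operations; as a
subset of the product `G ^ X` it carries the topology of pointwise convergence. -/
def Cp (X : Type u) (G : Type v) [TopologicalSpace X] [Group G] [TopologicalSpace G]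
    [IsTopologicalGroup G] : Subgroup (X → G) where
  carrier := {g | Continuous g}
  mul_mem' := fun ha hb => Continuous.mul ha hb
  one_mem' := continuous_const
  inv_mem' := fun ha => Continuous.inv ha

/-! ### The auxiliary function -/

/-- The Cantor set. -/
abbrev C : Type := ℕ → Bool

/-- A map of the Cantor set to itself that is onto on every nonempty open set. -/
lemma exists_h : ∃ h : C → C, ∀ K : Set C, IsOpen K → K.Nonempty → ∀ s, ∃ c ∈ K, h c = s := by
  classical
  let Q : C → ℕ → Prop := fun c N => c (2 * N) = true ∧ ∀ m > N, c (2 * m) = false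
  refine ⟨fun c => if h : ∃ N, Q c N then fun k => c (2 * (Classical.choose h + k) + 1) else c, ?_⟩
  rintro K hK ⟨c₀, hc₀⟩ s
  obtain ⟨I, u, hu, huK⟩ := isOpen_pi_iff.1 hK c₀ hc₀
  obtain ⟨n, hn⟩ : ∃ n, ∀ i ∈ I, i < n := by
    obtain ⟨n, hn⟩ := I.bddAbove
    exact ⟨n + 1, fun i hi => Nat.lt_succ_of_le (hn hi)⟩
  let c : C := fun i => if i < 2 * n then c₀ i else if i = 2 * n then true else
    if i % 2 = 1 then s ((i - 2 * n - 1) / 2) else false
  have hQ : Q c n := by
    refine ⟨?_, fun m hm => ?_⟩
    · simp [c]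
    · have h1 : ¬ 2 * m < 2 * n := by omega
      have h2 : ¬ 2 * m = 2 * n := by omega
      have h3 : ¬ (2 * m) % 2 = 1 := by omega
      simp only [c, h1, h2, h3, if_false]
  have huniq : ∀ N, Q c N → N = n := by
    rintro N ⟨h1, h2⟩
    rcases lt_trichotomy N n with h | h | h
    · have := h2 n h
      rw [hQ.1] at this
      exact absurd this (by simp)
    · exact h
    · have := hQ.2 N h
      rw [h1] at this
      exact absurd this (by simp)
  have hex : ∃ N, Q c N := ⟨n, hQ⟩
  refine ⟨c, ?_, ?_⟩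
  · apply huK
    intro i hi
    have h1 : i < 2 * n := by
      have := hn i hi
      omega
    have h2 : c i = c₀ i := by simp only [c, h1, if_true]
    rw [h2]
    exact (hu i hi).2
  · simp only [dif_pos hex]
    rw [huniq _ (Classical.choose_spec hex)]
    funext k
    have h1 : ¬ 2 * (n + k) + 1 < 2 * n := by omega
    have h2 : ¬ 2 * (n + k) + 1 = 2 * n := by omega
    have h3 : (2 * (n + k) + 1) % 2 = 1 := by omega
    have h4 : (2 * (n + k) + 1 - 2 * n - 1) / 2 = k := by omega
    simp only [c, h1, h2, h3, h4, if_false, if_true]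

/-- A function whose graph meets every closed set of `C × [0, 1]` whose projection has nonempty
interior. -/
lemma exists_f : ∃ f : C → unitInterval, ∀ P : Set (C × unitInterval), IsClosed P →
    ∀ K : Set C, IsOpen K → K.Nonempty → (∀ c ∈ K, ∃ t, (c, t) ∈ P) → ∃ c ∈ K, (c, f c) ∈ P := by
  classical
  obtain ⟨h, hh⟩ := exists_h
  obtain ⟨b, hbc, _, hb⟩ := exists_countable_basis (C × unitInterval)
  have hbne : b.Nonempty := by
    obtain ⟨v, hv, _⟩ := hb.exists_subset_of_mem_open
      (mem_univ ((fun _ => false, 0) : C × unitInterval)) isOpen_univ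
    exact ⟨v, hv⟩
  obtain ⟨e, rfl⟩ := hbc.exists_eq_range hbne
  let dec : C → Set (C × unitInterval) := fun s => (⋃ n ∈ {n | s n = true}, e n)ᶜ
  have hdec : ∀ P : Set (C × unitInterval), IsClosed P → ∃ s, dec s = P := by
    intro P hP
    refine ⟨fun n => decide (Disjoint (e n) P), ?_⟩
    ext z
    simp only [dec, mem_compl_iff, mem_iUnion, not_exists]
    constructor
    · intro hz
      by_contra hzP
      obtain ⟨v, ⟨n, rfl⟩, hzv, hvP⟩ := hb.exists_subset_of_mem_open hzP hP.isOpen_compl
      refine hz n ?_ hzv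
      show decide (Disjoint (e n) P) = true
      rw [decide_eq_true_iff]
      exact disjoint_left.2 fun w hw => hvP hw
    · intro hzP n hn hzn
      have hn' : decide (Disjoint (e n) P) = true := hn
      rw [decide_eq_true_iff] at hn'
      exact disjoint_left.1 hn' hzn hzP
  refine ⟨fun c => if hc : ∃ t, (c, t) ∈ dec (h c) then Classical.choose hc else 0, ?_⟩
  intro P hP K hK hKne hKP
  obtain ⟨s, hs⟩ := hdec P hP
  obtain ⟨c, hcK, hcs⟩ := hh K hK hKne s
  refine ⟨c, hcK, ?_⟩
  have hex : ∃ t, (c, t) ∈ dec (h c) := by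
    rw [hcs, hs]
    exact hKP c hcK
  simp only [dif_pos hex]
  have h1 := Classical.choose_spec hex
  have h2 : dec (h c) = P := by rw [hcs, hs]
  exact (Set.ext_iff.1 h2 _).1 h1

/-- A function whose graph meets every closed set of `C × [0, 1]` whose projection has nonempty
interior. -/
noncomputable def f : C → unitInterval := Classical.choose exists_f

lemma f_spec (P : Set (C × unitInterval)) (hP : IsClosed P) (K : Set C) (hK : IsOpen K)
    (hne : K.Nonempty) (h : ∀ c ∈ K, ∃ t, (c, t) ∈ P) : ∃ c ∈ K, (c, f c) ∈ P :=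
  Classical.choose_spec exists_f P hP K hK hne h

/-- The space `Y`: the graph of `f`, as a subspace of `C × [0, 1]`. -/
def Y : Type := {p : C × unitInterval // p.2 = f p.1}

instance : TopologicalSpace Y := instTopologicalSpaceSubtype

instance : T35Space Y := inferInstanceAs (T35Space {p : C × unitInterval // p.2 = f p.1})

/-- The projection of `Y` to the Cantor set (a continuous bijection). -/
def toC (y : Y) : C := y.1.1

/-- The inverse of the projection. -/
noncomputable def ofC (c : C) : Y := ⟨(c, f c), rfl⟩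

lemma toC_ofC (c : C) : toC (ofC c) = c := rfl

lemma ofC_toC (y : Y) : ofC (toC y) = y := Subtype.ext (Prod.ext rfl y.2.symm)

lemma continuous_val : Continuous (Subtype.val : Y → C × unitInterval) := continuous_subtype_val

lemma continuous_toC : Continuous toC := continuous_fst.comp continuous_val

lemma dense_graph : Dense (range fun c : C => (c, f c)) := by
  rw [dense_iff_inter_open]
  rintro W hW ⟨⟨c, t⟩, hct⟩
  obtain ⟨K, J, hK, _, hcK, htJ, hKJ⟩ := isOpen_prod_iff.1 hW c t hct
  obtain ⟨K', hK'o, hcK', hK'K⟩ := compact_exists_isClopen_in_isOpen hK hcK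
  obtain ⟨d, hdK, hdt⟩ := f_spec (K' ×ˢ {t}) (hK'o.isClosed.prod isClosed_singleton) K' hK'o.isOpen
    ⟨c, hcK'⟩ fun c hc => ⟨t, hc, rfl⟩
  refine ⟨(d, f d), hKJ ⟨hK'K hdK, ?_⟩, d, rfl⟩
  have : f d = t := hdt.2
  show f d ∈ J
  rw [this]
  exact htJ

/-- **Main lemma.** The clopen sets of `Y` come from open sets of the Cantor set. -/
lemma isOpen_of_isClopen {A : Set Y} (hA : IsClopen A) : IsOpen (ofC ⁻¹' A) := by
  obtain ⟨OA, hOA, hAO⟩ := isOpen_induced_iff.1 hA.isOpen
  obtain ⟨OB, hOB, hBO⟩ := isOpen_induced_iff.1 hA.compl.isOpen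
  have hAmem : ∀ c : C, (c, f c) ∈ OA ↔ ofC c ∈ A := fun c => by
    rw [← hAO]; rfl
  have hBmem : ∀ c : C, (c, f c) ∈ OB ↔ ofC c ∉ A := fun c => by
    have : ofC c ∈ Aᶜ ↔ (c, f c) ∈ OB := by rw [← hBO]; rfl
    exact this.symm
  set clA : Set (C × unitInterval) := closure ((fun c : C => (c, f c)) '' (ofC ⁻¹' A)) with hclA
  set clB : Set (C × unitInterval) := closure ((fun c : C => (c, f c)) '' (ofC ⁻¹' A)ᶜ) with hclB
  have hdA : ∀ z ∈ OA, z ∉ clB := by
    intro z hz hzB
    obtain ⟨_, hw, c, hc, rfl⟩ := mem_closure_iff.1 hzB OA hOA hz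
    exact hc ((hAmem c).1 hw)
  have hdB : ∀ z ∈ OB, z ∉ clA := by
    intro z hz hzA
    obtain ⟨_, hw, c, hc, rfl⟩ := mem_closure_iff.1 hzA OB hOB hz
    exact (hBmem c).1 hw hc
  have hcov : ∀ z, z ∈ clA ∨ z ∈ clB := by
    intro z
    have h1 : z ∈ closure (range fun c : C => (c, f c)) := dense_graph z
    have h2 : (range fun c : C => (c, f c)) = (fun c : C => (c, f c)) '' (ofC ⁻¹' A) ∪
        (fun c : C => (c, f c)) '' (ofC ⁻¹' A)ᶜ := by
      rw [← image_union, union_compl_self, image_univ]
    rw [h2, closure_union] at h1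
    exact h1
  -- generic fibres are contained in one of the closures
  have hfib : ∀ K : Set C, IsOpen K → K.Nonempty →
      ∃ c ∈ K, (∀ t, (c, t) ∈ clA) ∨ ∀ t, (c, t) ∈ clB := by
    intro K hK hne
    have h1 : ∃ c ∈ K, ∀ t, (c, t) ∉ clA ∩ clB := by
      by_contra hcon
      push Not at hcon
      obtain ⟨c, _, hc⟩ := f_spec (clA ∩ clB) (isClosed_closure.inter isClosed_closure) K hK hne hcon
      by_cases hcA : ofC c ∈ A
      · exact hdA _ ((hAmem c).2 hcA) hc.2
      · exact hdB _ ((hBmem c).2 hcA) hc.1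
    obtain ⟨c, hcK, hc⟩ := h1
    refine ⟨c, hcK, ?_⟩
    have hcont : Continuous fun t : unitInterval => (c, t) := by fun_prop
    have h2 : IsClopen {t : unitInterval | (c, t) ∈ clA} := by
      refine ⟨isClosed_closure.preimage hcont, ?_⟩
      have h3 : {t : unitInterval | (c, t) ∈ clA} = {t : unitInterval | (c, t) ∈ clB}ᶜ := by
        ext t
        constructor
        · intro h4 h5
          exact hc t ⟨h4, h5⟩
        · intro h4
          rcases hcov (c, t) with h5 | h5
          · exact h5
          · exact absurd h5 h4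
      rw [h3]
      exact (isClosed_closure.preimage hcont).isOpen_compl
    rcases isClopen_iff.1 h2 with h3 | h3
    · right
      intro t
      rcases hcov (c, t) with h5 | h5
      · have : t ∈ {t : unitInterval | (c, t) ∈ clA} := h5
        rw [h3] at this
        exact absurd this (notMem_empty t)
      · exact h5
    · left
      intro t
      have : t ∈ {t : unitInterval | (c, t) ∈ clA} := by rw [h3]; exact mem_univ t
      exact this
  rw [isOpen_iff_mem_nhds]
  intro c₀ hc₀
  obtain ⟨K, J, hK, _, hcK, htJ, hKJ⟩ := isOpen_prod_iff.1 hOA c₀ (f c₀) ((hAmem c₀).2 hc₀)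
  refine mem_of_superset (hK.mem_nhds hcK) ?_
  intro c₁ hc₁
  by_contra hc₁A
  obtain ⟨K₁, J₁, hK₁, _, hcK₁, htJ₁, hKJ₁⟩ := isOpen_prod_iff.1 hOB c₁ (f c₁) ((hBmem c₁).2 hc₁A)
  obtain ⟨c, ⟨hcK, hcK₁⟩, hc⟩ := hfib (K ∩ K₁) (hK.inter hK₁) ⟨c₁, hc₁, hcK₁⟩
  rcases hc with hc | hc
  · exact hdB _ (hKJ₁ ⟨hcK₁, htJ₁⟩) (hc _)
  · exact hdA _ (hKJ ⟨hcK, htJ⟩) (hc _)

/-! ### `G`-equivalence -/

section group

variable (G : Type v) [Group G] [TopologicalSpace G] [IsTopologicalGroup G]

omit [Group G] [IsTopologicalGroup G] in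
lemma continuous_comp_ofC (hG : IsTopologicalBasis {s : Set G | IsClopen s}) {g : Y → G}
    (hg : Continuous g) : Continuous (g ∘ ofC) := by
  rw [hG.continuous_iff]
  intro s hs
  exact isOpen_of_isClopen (IsClopen.preimage hs hg)

lemma dense_Cp : Dense (Cp C G : Set (C → G)) := by
  classical
  rw [dense_iff_inter_open]
  rintro W hW ⟨w, hw⟩
  obtain ⟨I, u, hu, huW⟩ := isOpen_pi_iff.1 hW w hw
  have h1 : ∀ F : Finset C, ∃ g : C → G, Continuous g ∧ ∀ c ∈ F, g c = w c := by
    intro F
    induction F using Finset.induction_on with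
    | empty => exact ⟨fun _ => 1, continuous_const, fun c hc => by simp at hc⟩
    | @insert d F hd ih =>
      obtain ⟨g, hg, hgF⟩ := ih
      obtain ⟨K, hK, hdK, hKF⟩ := compact_exists_isClopen_in_isOpen
        (F.finite_toSet.isClosed.isOpen_compl) (x := d) (by simpa using hd)
      refine ⟨K.piecewise (fun _ => w d) g, ?_, ?_⟩
      · refine continuous_const.piecewise ?_ hg
        rw [hK.frontier_eq]
        exact fun a ha => absurd ha (notMem_empty a)
      · intro c hc
        rcases Finset.mem_insert.1 hc with rfl | hc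
        · exact piecewise_eq_of_mem _ _ _ hdK
        · rw [piecewise_eq_of_notMem _ _ _ fun h => hKF h hc]
          exact hgF c hc
  obtain ⟨g, hg, hgI⟩ := h1 I
  refine ⟨g, huW fun i hi => ?_, hg⟩
  rw [hgI i hi]
  exact (hu i hi).2

lemma dense_Cp' : Dense (Cp Y G : Set (Y → G)) := by
  -- the homeomorphism `g ↦ g ∘ toC` of `C → G` and `Y → G`
  have h1 : Continuous fun (g : C → G) (y : Y) => g (toC y) :=
    continuous_pi fun y => continuous_apply (toC y)
  have h2 : Function.Surjective fun (g : C → G) (y : Y) => g (toC y) := fun g =>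
    ⟨g ∘ ofC, funext fun y => congrArg g (ofC_toC y)⟩
  refine (h2.denseRange.dense_image h1 (dense_Cp G)).mono ?_
  rintro _ ⟨g, hg, rfl⟩
  exact Continuous.comp hg continuous_toC

/-- The topological isomorphism of `C_p(C, G)` and `C_p(Y, G)`. -/
noncomputable def iso (hG : IsTopologicalBasis {s : Set G | IsClopen s}) :
    Cp C G ≃ₜ* Cp Y G where
  toFun g := ⟨fun y => g.1 (toC y), Continuous.comp g.2 continuous_toC⟩
  invFun g := ⟨fun c => g.1 (ofC c), continuous_comp_ofC G hG g.2⟩
  left_inv _ := rfl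
  right_inv g := Subtype.ext (funext fun y => congrArg g.1 (ofC_toC y))
  map_mul' _ _ := rfl
  continuous_toFun := by
    refine Continuous.subtype_mk ?_ _
    exact continuous_pi fun y => (continuous_apply (toC y)).comp continuous_subtype_val
  continuous_invFun := by
    refine Continuous.subtype_mk ?_ _
    exact continuous_pi fun c => (continuous_apply (ofC c)).comp continuous_subtype_val

end group

/-! ### Selective pseudocompactness -/

lemma selSeq_C : SelSeqPseudocompact C := by
  intro U hU
  choose x hx using fun n => (hU n).2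
  obtain ⟨a, φ, hφ, ha⟩ := CompactSpace.tendsto_subseq x
  exact ⟨x, hx, φ, hφ, a, ha⟩

/-- The Cantor set has no isolated points. -/
lemma exists_other {U : Set C} (hU : IsOpen U) {a : C} (ha : a ∈ U) : ∃ b ∈ U, b ≠ a := by
  classical
  obtain ⟨I, u, hu, huU⟩ := isOpen_pi_iff.1 hU a ha
  obtain ⟨n, hn⟩ := Infinite.exists_notMem_finset I
  refine ⟨Function.update a n (!a n), ?_, ?_⟩
  · apply huU
    intro i hi
    have : i ≠ n := fun h => hn (h ▸ hi)
    rw [Function.update_of_ne this]
    exact (hu i hi).2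
  · intro h
    have := congrFun h n
    rw [Function.update_self] at this
    simp at this

lemma sel_C : SelPseudocompact C := by
  classical
  intro U hU hdisj
  choose x hx using fun n => (hU n).2
  obtain ⟨a, φ, hφ, ha⟩ := CompactSpace.tendsto_subseq x
  by_cases hax : ∃ m, a ∈ U m
  · obtain ⟨m, hm⟩ := hax
    obtain ⟨b, hbU, hba⟩ := exists_other (hU m).1 hm
    refine ⟨Function.update x m b, ?_, ?_⟩
    · intro n
      by_cases hn : n = m
      · subst hn
        rwa [Function.update_self]
      · rw [Function.update_of_ne hn]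
        exact hx n
    · intro hcl
      have h1 : ∀ n, Function.update x m b n ≠ a := by
        intro n
        by_cases hn : n = m
        · subst hn
          rwa [Function.update_self]
        · rw [Function.update_of_ne hn]
          intro h
          exact disjoint_left.1 (hdisj n m hn) (hx n) (h ▸ hm)
      have h2 : Tendsto (fun k => Function.update x m b (φ k)) atTop (𝓝 a) := by
        refine ha.congr' ?_
        filter_upwards [eventually_gt_atTop m] with k hk
        have : φ k ≠ m := by
          have := hφ.le_apply (x := k)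
          omega
        rw [Function.update_of_ne this]
        rfl
      obtain ⟨n, hn⟩ := hcl.mem_of_tendsto h2 (Eventually.of_forall fun k => ⟨_, rfl⟩)
      exact h1 n hn
  · push Not at hax
    refine ⟨x, hx, fun hcl => ?_⟩
    obtain ⟨n, hn⟩ := hcl.mem_of_tendsto ha (Eventually.of_forall fun k => ⟨_, rfl⟩)
    exact hax n (hn ▸ hx n)

/-- Disjoint open sets of `Y` such that all selections are closed and discrete. -/
lemma exists_bad : ∃ U : ℕ → Set Y, (∀ n, IsOpen (U n) ∧ (U n).Nonempty) ∧
    (∀ m n, m ≠ n → Disjoint (U m) (U n)) ∧ ∃ z : C × unitInterval, (∀ y : Y, y.1 ≠ z) ∧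
      ∀ x : ℕ → Y, (∀ n, x n ∈ U n) → Tendsto (fun n => (x n).1) atTop (𝓝 z) := by
  obtain ⟨t, ht⟩ : ∃ t : unitInterval, t ≠ f (fun _ => false) := exists_ne _
  let z : C × unitInterval := (fun _ => false, t)
  let O : ℕ → Set (C × unitInterval) := fun n =>
    {c : C | (∀ i < n, c i = false) ∧ c n = true} ×ˢ Metric.ball t (1 / ((n : ℝ) + 1))
  have hOo : ∀ n, IsOpen (O n) := by
    intro n
    refine IsOpen.prod ?_ Metric.isOpen_ball
    have h1 : {c : C | (∀ i < n, c i = false) ∧ c n = true} =
        (⋂ i ∈ Iio n, (fun c : C => c i) ⁻¹' {false}) ∩ (fun c : C => c n) ⁻¹' {true} := by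
      ext c
      simp
    rw [h1]
    refine ((finite_Iio n).isOpen_biInter fun i _ => ?_).inter ?_
    · exact (isOpen_discrete _).preimage (continuous_apply i)
    · exact (isOpen_discrete _).preimage (continuous_apply n)
  have hOne : ∀ n, (O n).Nonempty := fun n =>
    ⟨(fun i => decide (i = n), t), ⟨fun i hi => by simp [hi.ne], by simp⟩,
      Metric.mem_ball_self (by positivity)⟩
  refine ⟨fun n => Subtype.val ⁻¹' (O n), fun n => ⟨(hOo n).preimage continuous_val, ?_⟩,
    ?_, z, ?_, ?_⟩
  · obtain ⟨_, hw, c, rfl⟩ := dense_iff_inter_open.1 dense_graph (O n) (hOo n) (hOne n)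
    exact ⟨ofC c, hw⟩
  · have key : ∀ m n, m < n → ∀ y : Y, y.1 ∈ O m → y.1 ∉ O n := by
      intro m n hmn y h1 h2
      have h3 : y.1.1 m = true := h1.1.2
      have h4 : y.1.1 m = false := h2.1.1 m hmn
      rw [h3] at h4
      exact absurd h4 (by simp)
    intro m n hmn
    rw [disjoint_left]
    intro c h1 h2
    rcases lt_or_gt_of_ne hmn with h | h
    · exact key m n h c h1 h2
    · exact key n m h c h2 h1
  · intro y hy
    have h0 : y.1.2 = f y.1.1 := y.2
    rw [hy] at h0
    exact ht h0
  · intro x hx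
    refine Tendsto.prodMk_nhds (mx := fun n => (x n).1.1) (my := fun n => (x n).1.2) ?_ ?_
    · rw [tendsto_pi_nhds]
      intro i
      refine tendsto_const_nhds.congr' ?_
      filter_upwards [eventually_gt_atTop i] with n hn
      exact ((hx n).1.1 i hn).symm
    · rw [tendsto_iff_dist_tendsto_zero]
      refine squeeze_zero (fun _ => dist_nonneg) (fun n => ?_)
        tendsto_one_div_add_atTop_nhds_zero_nat
      exact le_of_lt (hx n).2

lemma not_selSeq_Y : ¬ SelSeqPseudocompact Y := by
  intro h
  obtain ⟨U, hU, _, z, hz, hlim⟩ := exists_bad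
  obtain ⟨x, hx, φ, hφ, a, ha⟩ := h U hU
  have h1 := (hlim x hx).comp hφ.tendsto_atTop
  have h2 := (continuous_val.tendsto a).comp ha
  exact hz a (tendsto_nhds_unique h2 h1)

lemma not_sel_Y : ¬ SelPseudocompact Y := by
  intro h
  obtain ⟨U, hU, hdisj, z, hz, hlim⟩ := exists_bad
  obtain ⟨x, hx, hcl⟩ := h U hU hdisj
  apply hcl
  have h1 := hlim x hx
  rw [← isOpen_compl_iff, isOpen_iff_mem_nhds]
  intro a ha
  obtain ⟨O, O', hO, hO', haO, hzO', hOO'⟩ := t2_separation (hz a)
  obtain ⟨N, hN⟩ := eventually_atTop.1 (h1.eventually (hO'.mem_nhds hzO'))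
  have h2 : IsOpen (Subtype.val ⁻¹' O \ (x '' Iio N) : Set Y) :=
    (hO.preimage continuous_val).sdiff ((finite_Iio N).image x).isClosed
  refine mem_of_superset (h2.mem_nhds ⟨haO, ?_⟩) ?_
  · rintro ⟨n, _, hn⟩
    exact ha ⟨n, hn⟩
  · rintro b ⟨hb1, hb2⟩ ⟨n, rfl⟩
    by_cases hn : n < N
    · exact hb2 ⟨n, hn, rfl⟩
    · exact disjoint_left.1 hOO' hb1 (hN n (not_lt.1 hn))

/-- **Neither selective pseudocompactness nor selective sequential pseudocompactness is preserved
by `G`-equivalence.**  There are Tychonoff spaces `X` and `Y` such that `X` has both properties,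
`Y` has neither of them, and for every Hausdorff topological group `G` with a base of clopen sets
(for instance, every discrete group) the groups `C_p(X, G)` and `C_p(Y, G)` are dense in
`G ^ X` and `G ^ Y`, and topologically isomorphic. -/
theorem result : ∃ (X Y : Type) (_ : TopologicalSpace X) (_ : TopologicalSpace Y),
    T35Space X ∧ T35Space Y ∧
    SelSeqPseudocompact X ∧ SelPseudocompact X ∧ ¬ SelSeqPseudocompact Y ∧ ¬ SelPseudocompact Y ∧
    ∀ (G : Type v) [Group G] [TopologicalSpace G] [IsTopologicalGroup G] [T2Space G],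
      IsTopologicalBasis {s : Set G | IsClopen s} →
        Dense (Cp X G : Set (X → G)) ∧ Dense (Cp Y G : Set (Y → G)) ∧
          Nonempty (Cp X G ≃ₜ* Cp Y G) :=
  ⟨C, Y, inferInstance, inferInstance, inferInstance, inferInstance, selSeq_C, sel_C, not_selSeq_Y,
    not_sel_Y, fun G _ _ _ _ hG => ⟨dense_Cp G, dense_Cp' G, ⟨iso G hG⟩⟩⟩

end Pool.Agent.Results.MP_c4a8f9_gt.NotInvariant
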